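import Pool.Agent.Lib.MP_28303a_al.NT.H66.TreeE

/-! # The labels of a marked tree -/

set_option autoImplicit false
set_option linter.unusedSectionVars false

namespace Pool.Agent.NegK.NT.ER61

universe u

open SimpleGraph Pool.Agent.NegK.TW Pool.Agent.NegK.NT.H66.TD

section lab

variable {Γ : Type u} [Group Γ] {V E : Type u} [MulAction Γ V] [MulAction Γ E]
  {G : SimpleGraph V} (T : OTree Γ V E) (hT : T.Of G)

/-- The labels `(e, F, l)`: an edge `e` of the finite subtree `F` and a level `l`. -/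
@[ext] structure Nv : Type u where
  e : E
  F : Lb G
  l : ℕ
  le : Lb.ed T hT e ≤ F
  z : l = 0 → F = Lb.ed T hT e

/-- The labels: the vertices and the labels `(e, F, l)`. -/
inductive B0 : Type u
  | v : V → B0
  | n : Nv T hT → B0

variable {T hT}

/-- The order. -/
def B0.le : B0 T hT → B0 T hT → Prop
  | .v a, .v b => a = b
  | .v a, .n y => a ∈ y.F.1
  | .n _, .v _ => False
  | .n x, .n y => x = y ∨ (x.F ≤ y.F ∧ x.l < y.l)

theorem B0.le_refl' (x : B0 T hT) : B0.le x x := by
  cases x with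
  | v a => exact rfl
  | n x => exact Or.inl rfl

theorem B0.le_trans' {x y z : B0 T hT} (h : B0.le x y) (h' : B0.le y z) : B0.le x z := by
  cases x with
  | v a =>
    cases y with
    | v b =>
      have : a = b := h
      rw [this]
      exact h'
    | n y =>
      cases z with
      | v c => exact h'.elim
      | n z =>
        rcases (h' : y = z ∨ (y.F ≤ z.F ∧ y.l < z.l)) with h1 | h1
        · rw [← h1]
          exact h
        · exact Lb.le_iff.1 h1.1 h
  | n x =>
    cases y with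
    | v b => exact h.elim
    | n y =>
      cases z with
      | v c => exact h'.elim
      | n z =>
        rcases (h : x = y ∨ (x.F ≤ y.F ∧ x.l < y.l)) with h1 | h1
        · rw [h1]
          exact h'
        · rcases (h' : y = z ∨ (y.F ≤ z.F ∧ y.l < z.l)) with h2 | h2
          · rw [← h2]
            exact Or.inr h1
          · exact Or.inr ⟨h1.1.trans h2.1, h1.2.trans h2.2⟩

theorem B0.le_antisymm' {x y : B0 T hT} (h : B0.le x y) (h' : B0.le y x) : x = y := by
  cases x with
  | v a =>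
    cases y with
    | v b => exact congrArg B0.v h
    | n y => exact h'.elim
  | n x =>
    cases y with
    | v b => exact h.elim
    | n y =>
      rcases (h : x = y ∨ (x.F ≤ y.F ∧ x.l < y.l)) with h1 | h1
      · rw [h1]
      · rcases (h' : y = x ∨ (y.F ≤ x.F ∧ y.l < x.l)) with h2 | h2
        · rw [h2]
        · exact absurd h1.2 (not_lt.2 h2.2.le)

instance : PartialOrder (B0 T hT) where
  le := B0.le
  le_refl := B0.le_refl'
  le_trans _ _ _ h h' := B0.le_trans' h h'
  le_antisymm _ _ h h' := B0.le_antisymm' h h'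

theorem B0.v_le_v {a b : V} : (B0.v a : B0 T hT) ≤ B0.v b ↔ a = b := Iff.rfl

theorem B0.v_le_n {a : V} {y : Nv T hT} : B0.v a ≤ B0.n y ↔ a ∈ y.F.1 := Iff.rfl

theorem B0.not_n_le_v {x : Nv T hT} {b : V} : ¬ B0.n x ≤ B0.v b := fun h => h

theorem B0.n_le_n {x y : Nv T hT} : B0.n x ≤ B0.n y ↔ x = y ∨ (x.F ≤ y.F ∧ x.l < y.l) := Iff.rfl

variable (T hT) in
/-- The label of an edge. -/
noncomputable def Nv.ed (e : E) : Nv T hT := ⟨e, Lb.ed T hT e, 0, le_rfl, fun _ => rfl⟩

/-- The edges of the label `(e, F, l)`. -/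
theorem B0.ed_le {e : E} {y : Nv T hT} :
    B0.n (Nv.ed T hT e) ≤ B0.n y ↔ T.o e ∈ y.F.1 ∧ T.t e ∈ y.F.1 := by
  rw [B0.n_le_n, ← Lb.ed_le T hT]
  constructor
  · rintro (h | h)
    · rw [← h]
      exact le_rfl
    · exact h.1
  · intro h
    by_cases h0 : y.l = 0
    · refine Or.inl ?_
      have h1 := y.z h0
      rw [h1] at h
      have h2 : e = y.e := by
        classical
        have h3 := (Lb.ed_le T hT).1 h
        have h4 : T.o e = T.o y.e ∨ T.o e = T.t y.e := by
          have := h3.1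
          rw [Lb.ed, Finset.mem_insert, Finset.mem_singleton] at this
          exact this
        have h5 : T.t e = T.o y.e ∨ T.t e = T.t y.e := by
          have := h3.2
          rw [Lb.ed, Finset.mem_insert, Finset.mem_singleton] at this
          exact this
        have h6 := (hT.adj e).ne
        rcases h4 with h4 | h4 <;> rcases h5 with h5 | h5
        · exact absurd (h4.trans h5.symm) h6
        · exact hT.inj e y.e h4 h5
        · exact absurd h5 (hT.anti e y.e h4)
        · exact absurd (h4.trans h5.symm) h6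
      refine Nv.ext h2 ?_ h0.symm
      rw [h1, h2]
      rfl
    · exact Or.inr ⟨h, Nat.pos_of_ne_zero h0⟩

/-- The size of a label. -/
def B0.sz : B0 T hT → ℕ
  | .v _ => 0
  | .n x => x.l + 1

theorem B0.sz_lt {x y : B0 T hT} (h : x ≤ y) (hne : x ≠ y) : x.sz < y.sz := by
  cases x with
  | v a =>
    cases y with
    | v b => exact absurd (congrArg B0.v h) hne
    | n y => exact Nat.succ_pos _
  | n x =>
    cases y with
    | v b => exact absurd h B0.not_n_le_v
    | n y =>
      rcases B0.n_le_n.1 h with h1 | h1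
      · exact absurd (congrArg B0.n h1) hne
      · exact Nat.succ_lt_succ h1.2

/-- The subtree of a label. -/
def B0.sub : B0 T hT → Lb G
  | .v a => Lb.vt G a
  | .n x => x.F

theorem B0.v_le {a : V} {y : B0 T hT} : B0.v a ≤ y ↔ a ∈ y.sub.1 := by
  cases y with
  | v b =>
    rw [B0.v_le_v]
    exact (Finset.mem_singleton).symm
  | n y => exact B0.v_le_n

theorem B0.dir (hG : G.IsTree) (hE : Nonempty E) (x y : B0 T hT) : ∃ z, x ≤ z ∧ y ≤ z := by
  obtain ⟨e⟩ := hE
  obtain ⟨r, h1, h2⟩ := H66.TD.dir hG x.sub y.sub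
  obtain ⟨r', h3, h4⟩ := H66.TD.dir hG r (Lb.ed T hT e)
  have key : ∀ w : B0 T hT, w.sub ≤ r' → w.sz ≤ x.sz + y.sz →
      w ≤ B0.n (⟨e, r', x.sz + y.sz + 1, h4, fun h => absurd h (Nat.succ_ne_zero _)⟩ :
        Nv T hT) := by
    intro w h5 h6
    cases w with
    | v a => exact B0.v_le_n.2 (Lb.vt_le.1 h5)
    | n w =>
      refine B0.n_le_n.2 (Or.inr ⟨h5, ?_⟩)
      have : w.l + 1 ≤ x.sz + y.sz := h6
      show w.l < x.sz + y.sz + 1
      omega
  exact ⟨_, key x (h1.trans h3) (Nat.le_add_right _ _), key y (h2.trans h3) (Nat.le_add_left _ _)⟩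

theorem Lb.fin_le (x : Lb G) : {y : Lb G | y ≤ x}.Finite := by
  refine Set.Finite.of_finite_image
    (f := fun y : Lb G => y.1) ((x.1.powerset.finite_toSet).subset ?_)
    (fun a _ b _ hab => Lb.ext' hab)
  rintro _ ⟨y, hy, rfl⟩
  exact Finset.mem_coe.2 (Finset.mem_powerset.2 hy)

theorem B0.fin_le (x : B0 T hT) : {y | y ≤ x}.Finite := by
  classical
  have h1 : (Set.range fun a : x.sub.1 => (B0.v a.1 : B0 T hT)).Finite := Set.finite_range _
  have h2 : {e : E | T.o e ∈ x.sub.1 ∧ T.t e ∈ x.sub.1}.Finite := by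
    refine Set.Finite.of_finite_image (f := fun e => (T.o e, T.t e))
      (((x.sub.1 ×ˢ x.sub.1).finite_toSet).subset ?_) ?_
    · rintro _ ⟨e, he, rfl⟩
      exact Finset.mem_coe.2 (Finset.mem_product.2 he)
    · intro e _ e' _ h
      exact hT.inj e e' (congrArg Prod.fst h) (congrArg Prod.snd h)
  have h3 : {y : Nv T hT | y.F ≤ x.sub ∧ y.l < x.sz}.Finite := by
    refine Set.Finite.of_finite_image (f := fun y : Nv T hT => (y.e, y.F, y.l))
      ((h2.prod ((Lb.fin_le x.sub).prod (Finset.range x.sz).finite_toSet)).subset ?_) ?_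
    · rintro _ ⟨y, hy, rfl⟩
      have h4 := (Lb.ed_le T hT).1 (y.le.trans hy.1)
      exact ⟨h4, hy.1, Finset.mem_coe.2 (Finset.mem_range.2 hy.2)⟩
    · intro y _ y' _ h
      exact Nv.ext (congrArg Prod.fst h) (congrArg (fun z => z.2.1) h)
        (congrArg (fun z => z.2.2) h)
  refine (h1.union (h3.image B0.n)).subset ?_
  intro y hy
  have hy' : y ≤ x := hy
  cases y with
  | v a => exact Or.inl ⟨⟨a, B0.v_le.1 hy'⟩, rfl⟩
  | n y =>
    cases x with
    | v b => exact absurd hy' B0.not_n_le_v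
    | n x =>
      refine Or.inr ⟨y, ?_, rfl⟩
      rcases B0.n_le_n.1 hy' with h | h
      · rw [h]
        exact ⟨le_rfl, Nat.lt_succ_self _⟩
      · exact ⟨h.1, h.2.trans (Nat.lt_succ_self _)⟩

end lab

section act

variable {Γ : Type u} [Group Γ] {V E : Type u} [MulAction Γ V] [MulAction Γ E]
  {G : SimpleGraph V} {T : OTree Γ V E} {hT : T.Of G} (hA : TreeAct Γ G)

theorem Lb.smul_le {g : Γ} {x y : Lb G} (h : x ≤ y) :
    Lb.smul hA.adj g x ≤ Lb.smul hA.adj g y := by
  intro v hv
  have h1 := (Lb.mem_smul hA.adj).1 hv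
  exact (Lb.mem_smul hA.adj).2 (h h1)

theorem Lb.smul_ed (g : Γ) (e : E) : Lb.smul hA.adj g (Lb.ed T hT e) = Lb.ed T hT (g • e) := by
  classical
  refine Lb.ext' (Finset.ext fun v => ?_)
  rw [Lb.mem_smul, Lb.ed, Lb.ed, Finset.mem_insert, Finset.mem_singleton, Finset.mem_insert,
    Finset.mem_singleton, T.o_smul, T.t_smul, inv_smul_eq_iff, inv_smul_eq_iff]

theorem Lb.smul_vt (g : Γ) (v : V) : Lb.smul hA.adj g (Lb.vt G v) = Lb.vt G (g • v) := by
  refine Lb.ext' (Finset.ext fun w => ?_)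
  rw [Lb.mem_smul, Lb.vt, Lb.vt, Finset.mem_singleton, Finset.mem_singleton, inv_smul_eq_iff]

theorem Lb.one_smul' (x : Lb G) : Lb.smul hA.adj (1 : Γ) x = x :=
  (Lb.act hA.adj).one_smul x

theorem Lb.mul_smul' (g h : Γ) (x : Lb G) :
    Lb.smul hA.adj (g * h) x = Lb.smul hA.adj g (Lb.smul hA.adj h x) :=
  (Lb.act hA.adj).mul_smul g h x

/-- The action on the labels. -/
def Nv.smul (g : Γ) (x : Nv T hT) : Nv T hT :=
  ⟨g • x.e, Lb.smul hA.adj g x.F, x.l, by
    rw [← Lb.smul_ed hA]
    exact Lb.smul_le hA x.le, fun h => by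
    rw [x.z h, Lb.smul_ed hA]⟩

/-- The action on the labels. -/
def B0.smul (g : Γ) : B0 T hT → B0 T hT
  | .v a => .v (g • a)
  | .n x => .n (Nv.smul hA g x)

variable (T hT) in
/-- The action on the labels. -/
@[reducible] def B0.act : MulAction Γ (B0 T hT) where
  smul := B0.smul hA
  one_smul x := by
    cases x with
    | v a => exact congrArg B0.v (one_smul Γ a)
    | n x => exact congrArg B0.n (Nv.ext (one_smul Γ x.e) (Lb.one_smul' hA x.F) rfl)
  mul_smul g h x := by
    cases x with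
    | v a => exact congrArg B0.v (mul_smul g h a)
    | n x => exact congrArg B0.n (Nv.ext (mul_smul g h x.e) (Lb.mul_smul' hA g h x.F) rfl)

theorem B0.smul_le_smul (g : Γ) {x y : B0 T hT} (h : x ≤ y) :
    B0.smul hA g x ≤ B0.smul hA g y := by
  cases x with
  | v a =>
    cases y with
    | v b => exact congrArg (g • ·) (B0.v_le_v.1 h)
    | n y =>
      refine B0.v_le_n.2 ((Lb.mem_smul hA.adj).2 ?_)
      rw [inv_smul_smul]
      exact B0.v_le_n.1 h
  | n x =>
    cases y with
    | v b => exact absurd h B0.not_n_le_v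
    | n y =>
      rcases B0.n_le_n.1 h with h1 | h1
      · rw [h1]
      · exact B0.n_le_n.2 (Or.inr ⟨Lb.smul_le hA h1.1, h1.2⟩)

theorem B0.sz_smul (g : Γ) (x : B0 T hT) : (B0.smul hA g x).sz = x.sz := by
  cases x <;> rfl

end act

end Pool.Agent.NegK.NT.ER61
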