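import Pool.Agent.Lib.MP_28303a_al.NT.ER61.Lab

/-! # The systems of the labels of trees, one of them marked -/

set_option autoImplicit false
set_option linter.unusedSectionVars false

namespace Pool.Agent.NegK.NT.ER61

universe u

open SimpleGraph Pool.Agent.NegK.TW Pool.Agent.NegK.NT.H66.TD

/-- The labels of one tree. -/
structure TL (Γ : Type u) [Group Γ] where
  B : Type u
  act : MulAction Γ B
  ord : PartialOrder B
  mono : ∀ (g : Γ) (x y : B), x ≤ y → g • x ≤ g • y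
  dir : ∀ x y : B, ∃ z, x ≤ z ∧ y ≤ z
  ne : Nonempty B
  V : Type u
  E : Type u
  vt : V → B
  ed : E → B
  s : E → V
  t : E → V
  sle : ∀ e, vt (s e) ≤ ed e
  tle : ∀ e, vt (t e) ≤ ed e
  root : B → V
  root_le : ∀ c, vt (root c) ≤ c
  pth : B → V → (E →₀ ℤ)
  pth_le : ∀ c v, vt v ≤ c → ∀ e, pth c v e ≠ 0 → ed e ≤ c
  bd_pth : ∀ c v, vt v ≤ c → ((pth c v).sum fun e a =>
    a • (Finsupp.single (s e) (1 : ℤ) - Finsupp.single (t e) 1)) =
      Finsupp.single v 1 - Finsupp.single (root c) 1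
  pth_bd : ∀ c e, ed e ≤ c → pth c (s e) - pth c (t e) = Finsupp.single e 1
  fin : ∀ x : B, {y | y ≤ x}.Finite
  sz : B → ℕ
  sz_smul : ∀ (g : Γ) (x : B), sz (g • x) = sz x
  sz_lt : ∀ x y : B, x ≤ y → x ≠ y → sz x < sz y

attribute [instance] TL.act TL.ord TL.ne

section

variable {Γ : Type u} [Group Γ] {m : ℕ} (L : Fin m → TL Γ)

/-- The system. -/
def TL.sys : Sys Γ where
  m := m
  B i := (L i).B
  act i := (L i).act
  ord i := (L i).ord
  mono i := (L i).mono
  dir i := (L i).dir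
  ne i := (L i).ne

/-- The trees. -/
def TL.tr : (TL.sys L).Tr where
  V i := (L i).V
  E i := (L i).E
  vt i := (L i).vt
  ed i := (L i).ed
  s i := (L i).s
  t i := (L i).t
  sle i := (L i).sle
  tle i := (L i).tle
  root i := (L i).root
  root_le i := (L i).root_le
  pth i := (L i).pth
  pth_le i := (L i).pth_le
  bd_pth i := (L i).bd_pth
  pth_bd i := (L i).pth_bd

theorem TL.fin_sys (i : Fin (TL.sys L).m) (x : (TL.sys L).B i) :
    {y : (TL.sys L).B i | y ≤ x}.Finite := (L i).fin x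

theorem TL.sized : (TL.sys L).Sized := by
  classical
  let sz : (∀ i, (L i).B) → ℕ := fun x => ∑ i, (L i).sz (x i)
  refine ⟨sz, ?_, ?_⟩
  · intro g x
    exact Finset.sum_congr rfl fun i _ => (L i).sz_smul g _
  · intro x y h hne
    have h1 : ∀ i, (x : ∀ i, (L i).B) i ≤ (y : ∀ i, (L i).B) i := h
    have h2 : ∀ i, (L i).sz ((x : ∀ i, (L i).B) i) ≤ (L i).sz ((y : ∀ i, (L i).B) i) := by
      intro i
      by_cases h3 : (x : ∀ i, (L i).B) i = (y : ∀ i, (L i).B) i
      · rw [h3]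
      · exact ((L i).sz_lt _ _ (h1 i) h3).le
    obtain ⟨i, hi⟩ := Function.ne_iff.1 hne
    exact Finset.sum_lt_sum (fun j _ => h2 j) ⟨i, Finset.mem_univ _, (L i).sz_lt _ _ (h1 i) hi⟩

end

section one

variable {Γ : Type u} [Group Γ] {V E : Type u} [iV : MulAction Γ V] [iE : MulAction Γ E]
  {G : SimpleGraph V} (T : OTree Γ V E) (hT : T.Of G) (hA : TreeAct Γ G)

theorem mem_sub_ed {e : E} {c : B0 T hT} (h : T.o e ∈ c.sub.1 ∧ T.t e ∈ c.sub.1) :
    B0.n (Nv.ed T hT e) ≤ c := by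
  cases c with
  | v a =>
    have h1 : T.o e = a := Finset.mem_singleton.1 h.1
    have h2 : T.t e = a := Finset.mem_singleton.1 h.2
    exact absurd (h1.trans h2.symm) (hT.adj e).ne
  | n x => exact B0.ed_le.2 h

theorem mem_sub_of_le {e : E} {c : B0 T hT} (h : B0.n (Nv.ed T hT e) ≤ c) :
    T.o e ∈ c.sub.1 ∧ T.t e ∈ c.sub.1 := by
  cases c with
  | v a => exact absurd h B0.not_n_le_v
  | n x => exact B0.ed_le.1 h

/-- The labels of a marked tree. -/
noncomputable def TL.mark (hE : Nonempty E) : TL Γ where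
  B := B0 T hT
  act := B0.act T hT hA
  ord := inferInstance
  mono g _ _ h := B0.smul_le_smul hA g h
  dir := B0.dir hA.tree hE
  ne := ⟨B0.n (Nv.ed T hT hE.some)⟩
  V := V
  E := E
  vt := B0.v
  ed e := B0.n (Nv.ed T hT e)
  s := T.t
  t := T.o
  sle e := B0.v_le_n.2 ((Lb.ed_le T hT).1 le_rfl).2
  tle e := B0.v_le_n.2 ((Lb.ed_le T hT).1 le_rfl).1
  root c := H66.TD.root c.sub
  root_le c := B0.v_le.2 (root_mem c.sub)
  pth c v := H66.TD.pth T hA.tree hT c.sub v
  pth_le c v hv e he := mem_sub_ed T hT (pth_mem T hA.tree hT (B0.v_le.1 hv) he)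
  bd_pth c v hv := by
    rw [bd_eq]
    exact H66.TD.bd_pth T hA.tree hT (B0.v_le.1 hv)
  pth_bd c e he := by
    have h1 := mem_sub_of_le T hT he
    exact H66.TD.pth_bd T hA.tree hT h1.1 h1.2
  fin x := B0.fin_le x
  sz := B0.sz
  sz_smul g x := B0.sz_smul hA g x
  sz_lt _ _ h hne := B0.sz_lt h hne

/-- The labels of a tree: the finite subtrees. -/
noncomputable def TL.plain : TL Γ where
  B := Lb G
  act := Lb.act hA.adj
  ord := inferInstance
  mono g _ _ h := Lb.smul_le hA h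
  dir := H66.TD.dir hA.tree
  ne := by
    obtain ⟨v⟩ := hA.tree.connected.nonempty
    exact ⟨Lb.vt G v⟩
  V := V
  E := E
  vt := Lb.vt G
  ed := Lb.ed T hT
  s := T.t
  t := T.o
  sle e := Lb.vt_le.2 ((Lb.ed_le T hT).1 le_rfl).2
  tle e := Lb.vt_le.2 ((Lb.ed_le T hT).1 le_rfl).1
  root c := H66.TD.root c
  root_le c := Lb.vt_le.2 (root_mem c)
  pth c v := H66.TD.pth T hA.tree hT c v
  pth_le c v hv e he := (Lb.ed_le T hT).2 (pth_mem T hA.tree hT (Lb.vt_le.1 hv) he)
  bd_pth c v hv := by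
    rw [bd_eq]
    exact H66.TD.bd_pth T hA.tree hT (Lb.vt_le.1 hv)
  pth_bd c e he := by
    have h1 := (Lb.ed_le T hT).1 he
    exact H66.TD.pth_bd T hA.tree hT h1.1 h1.2
  fin x := Lb.fin_le x
  sz x := x.1.card
  sz_smul g x := Finset.card_map _
  sz_lt x y h hne := Finset.card_lt_card
    ((Lb.le_iff.1 h).ssubset_of_ne fun h2 => hne (Lb.ext' h2))

end one

end Pool.Agent.NegK.NT.ER61
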