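import Pool.Agent.Lib.MP_28303a_al.NT.ER61.Sys0

/-! # The system of a product of trees with a marked tree -/

set_option autoImplicit false
set_option linter.unusedSectionVars false

namespace Pool.Agent.NegK.NT.ER61

universe u

open SimpleGraph Pool.Agent.NegK.TW Pool.Agent.NegK.NT.H66.TD

section one

variable {Γ : Type u} [Group Γ] {V E : Type u} [iV : MulAction Γ V] [iE : MulAction Γ E]
  {G : SimpleGraph V} (T : OTree Γ V E) (hT : T.Of G) (hA : TreeAct Γ G)

theorem plain_fix (c : (TL.plain T hT hA).B) :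
    ∃ v : V, ∀ g : Γ, g • c = c → g • v = v := by
  obtain ⟨v, -, h⟩ := centre hA c
  exact ⟨v, h⟩

/-- An element which fixes an edge fixes its points. -/
theorem edge_fix {g : Γ} {e : E} (h : g • e = e) : g • T.o e = T.o e ∧ g • T.t e = T.t e := by
  rw [← T.o_smul, ← T.t_smul, h]
  exact ⟨rfl, rfl⟩

theorem mark_n_fix {g : Γ} {x : Nv T hT} (h : B0.smul hA g (B0.n x) = B0.n x) :
    g • x.e = x.e := by
  have h1 : (B0.n (Nv.smul hA g x) : B0 T hT) = B0.n x := h
  injection h1 with h2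
  exact congrArg Nv.e h2

theorem mark_fix (hE : Nonempty E) (c : (TL.mark T hT hA hE).B) :
    ∃ v : V, ∀ g : Γ, g • c = c → g • v = v := by
  have c' : B0 T hT := c
  revert c
  intro (c : B0 T hT)
  cases c with
  | v a =>
    refine ⟨a, fun g hg => ?_⟩
    have h1 : (B0.v (g • a) : B0 T hT) = B0.v a := hg
    injection h1
  | n x => exact ⟨T.t x.e, fun g hg => (edge_fix T (mark_n_fix T hT hA hg)).2⟩

theorem mark_nv (hE : Nonempty E) (c : (TL.mark T hT hA hE).B)
    (hc : ¬ ∃ v, c = (TL.mark T hT hA hE).vt v) :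
    ∃ a b : V, G.Adj a b ∧ ∀ g : Γ, g • c = c → g • a = a ∧ g • b = b := by
  revert c
  intro (c : B0 T hT) hc
  cases c with
  | v a => exact absurd ⟨a, rfl⟩ hc
  | n x => exact ⟨T.o x.e, T.t x.e, hT.adj x.e, fun g hg => edge_fix T (mark_n_fix T hT hA hg)⟩

end one

section

variable {Γ : Type u} [Group Γ] (Y : Trees Γ)

theorem exO (i : Fin Y.m) : ∃ (E : Type u) (_ : MulAction Γ E) (T : OTree Γ (Y.V i) E),
    T.Of (Y.G i) := H19.tre' Γ (Y.V i) (Y.G i) (Y.tree i)

/-- The edges. -/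
def oE (i : Fin Y.m) : Type u := (exO Y i).choose

noncomputable instance (i : Fin Y.m) : MulAction Γ (oE Y i) := (exO Y i).choose_spec.choose

/-- The oriented trees. -/
noncomputable def oT (i : Fin Y.m) : OTree Γ (Y.V i) (oE Y i) :=
  (exO Y i).choose_spec.choose_spec.choose

theorem oOf (i : Fin Y.m) : (oT Y i).Of (Y.G i) := (exO Y i).choose_spec.choose_spec.choose_spec

variable (o : Fin Y.m)

theorem oE_nonempty (h : ∃ a b, (Y.G o).Adj a b) : Nonempty (oE Y o) := by
  obtain ⟨a, b, h⟩ := h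
  rcases (oOf Y o).surj a b h with ⟨e, -⟩ | ⟨e, -⟩ <;> exact ⟨e⟩

open Classical in
/-- The labels of the trees: the tree `o` is marked. -/
noncomputable def fam (hE : Nonempty (oE Y o)) (i : Fin Y.m) : TL Γ :=
  if h : i = o then TL.mark (oT Y i) (oOf Y i) (Y.tree i) (h ▸ hE)
  else TL.plain (oT Y i) (oOf Y i) (Y.tree i)

variable {o}

theorem fam_self (hE : Nonempty (oE Y o)) :
    fam Y o hE o = TL.mark (oT Y o) (oOf Y o) (Y.tree o) hE := dif_pos rfl

theorem fam_ne (hE : Nonempty (oE Y o)) {i : Fin Y.m} (h : i ≠ o) :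
    fam Y o hE i = TL.plain (oT Y i) (oOf Y i) (Y.tree i) := dif_neg h

/-- The system with the marked tree `o`. -/
noncomputable abbrev msys (hE : Nonempty (oE Y o)) : Sys Γ := TL.sys (fam Y o hE)

/-- Its trees. -/
noncomputable abbrev mtr (hE : Nonempty (oE Y o)) : (msys Y hE).Tr := TL.tr (fam Y o hE)

theorem fam_fix (hE : Nonempty (oE Y o)) (i : Fin Y.m) :
    ∀ c : (fam Y o hE i).B, ∃ v : Y.V i, ∀ g : Γ, g • c = c → g • v = v := by
  by_cases h : i = o
  · subst h
    have key : ∀ L : TL Γ, L = TL.mark (oT Y i) (oOf Y i) (Y.tree i) hE →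
        ∀ c : L.B, ∃ v : Y.V i, ∀ g : Γ, g • c = c → g • v = v := by
      rintro L rfl
      exact mark_fix (oT Y i) (oOf Y i) (Y.tree i) hE
    exact key _ (fam_self Y hE)
  · have key : ∀ L : TL Γ, L = TL.plain (oT Y i) (oOf Y i) (Y.tree i) →
        ∀ c : L.B, ∃ v : Y.V i, ∀ g : Γ, g • c = c → g • v = v := by
      rintro L rfl
      exact plain_fix (oT Y i) (oOf Y i) (Y.tree i)
    exact key _ (fam_ne Y hE h)

theorem fam_nv (hE : Nonempty (oE Y o)) :
    ∀ c : (fam Y o hE o).B, (¬ ∃ v, c = (fam Y o hE o).vt v) →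
      ∃ a b : Y.V o, (Y.G o).Adj a b ∧ ∀ g : Γ, g • c = c → g • a = a ∧ g • b = b := by
  have key : ∀ L : TL Γ, L = TL.mark (oT Y o) (oOf Y o) (Y.tree o) hE →
      ∀ c : L.B, (¬ ∃ v, c = L.vt v) →
        ∃ a b : Y.V o, (Y.G o).Adj a b ∧ ∀ g : Γ, g • c = c → g • a = a ∧ g • b = b := by
    rintro L rfl
    exact mark_nv (oT Y o) (oOf Y o) (Y.tree o) hE
  exact key _ (fam_self Y hE)

/-- The stabilizers of the boxes which are not over vertices of the marked tree. -/
theorem stab_nv (hE : Nonempty (oE Y o)) (U : (msys Y hE).Box)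
    (hU : ¬ ∃ v, U o = (mtr Y hE).vt o v) :
    ∃ (x : ∀ i, Y.V i) (b : Y.V o), (Y.G o).Adj (x o) b ∧
      MulAction.stabilizer Γ U ≤ Y.st x ⊓ MulAction.stabilizer Γ b := by
  classical
  obtain ⟨a, b, hab, h⟩ := fam_nv Y hE ((U : ∀ i, (fam Y o hE i).B) o) hU
  choose x hx using fun i => fam_fix Y hE i ((U : ∀ i, (fam Y o hE i).B) i)
  refine ⟨Function.update x o a, b, ?_, fun g hg => ?_⟩
  · rw [Function.update_self]
    exact hab
  · have h1 : ∀ i, g • (U : ∀ i, (fam Y o hE i).B) i = (U : ∀ i, (fam Y o hE i).B) i := fun i =>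
      congrFun (MulAction.mem_stabilizer_iff.1 hg) i
    refine Subgroup.mem_inf.2 ⟨Subgroup.mem_iInf.2 fun i => ?_, ?_⟩
    · refine MulAction.mem_stabilizer_iff.2 ?_
      by_cases hi : i = o
      · subst hi
        rw [Function.update_self]
        exact (h g (h1 i)).1
      · rw [Function.update_of_ne hi]
        exact hx i g (h1 i)
    · exact MulAction.mem_stabilizer_iff.2 (h g (h1 o)).2

/-- The stabilizers of all boxes. -/
theorem stab_all (hE : Nonempty (oE Y o)) (U : (msys Y hE).Box) :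
    ∃ x : ∀ i, Y.V i, MulAction.stabilizer Γ U ≤ Y.st x := by
  choose x hx using fun i => fam_fix Y hE i ((U : ∀ i, (fam Y o hE i).B) i)
  refine ⟨x, fun g hg => Subgroup.mem_iInf.2 fun i => MulAction.mem_stabilizer_iff.2 ?_⟩
  exact hx i g (congrFun (MulAction.mem_stabilizer_iff.1 hg) i)

end

end Pool.Agent.NegK.NT.ER61
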