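import Pool.Agent.Lib.MP_28303a_al.NT.ER61.Sys1
import Pool.Agent.Lib.MP_28303a_al.NT.ER.Defs

/-! # The row SYS -/

set_option autoImplicit false
set_option linter.unusedSectionVars false

namespace Pool.Agent.NegK.NT.ER61

universe u

open SimpleGraph Pool.Agent.NegK.TW Pool.Agent.NegK.NT.H66.TD

/-- The labels of one marked tree. -/
structure MkL {Γ : Type u} [Group Γ] (L : TL Γ) [MulAction Γ L.V] [MulAction Γ L.E] : Prop where
  vt_smul : ∀ (g : Γ) (v : L.V), L.vt (g • v) = g • L.vt v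
  ed_smul : ∀ (g : Γ) (e : L.E), L.ed (g • e) = g • L.ed e
  s_smul : ∀ (g : Γ) (e : L.E), L.s (g • e) = g • L.s e
  t_smul : ∀ (g : Γ) (e : L.E), L.t (g • e) = g • L.t e
  vt_inj : Function.Injective L.vt
  ed_inj : Function.Injective L.ed
  st : ∀ e : L.E, L.s e ≠ L.t e
  vt_min : ∀ (v : L.V) x, x ≤ L.vt v → x = L.vt v
  vt_ed : ∀ (v : L.V) (e : L.E), L.vt v ≤ L.ed e → v = L.s e ∨ v = L.t e
  ed_le : ∀ e e' : L.E, L.ed e ≤ L.ed e' → e = e'
  ed_vt : ∀ (e : L.E) (v : L.V), L.ed e ≠ L.vt v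

section one

variable {Γ : Type u} [Group Γ] {V E : Type u} [iV : MulAction Γ V] [iE : MulAction Γ E]
  {G : SimpleGraph V} (T : OTree Γ V E) (hT : T.Of G) (hA : TreeAct Γ G)

/-- The marking. -/
theorem mkL (hE : Nonempty E) :
    @MkL Γ _ (TL.mark T hT hA hE) iV iE :=
  letI : MulAction Γ (TL.mark T hT hA hE).V := iV
  letI : MulAction Γ (TL.mark T hT hA hE).E := iE
  { vt_smul := fun g v => rfl
    ed_smul := fun g (e : E) => congrArg B0.n (Nv.ext (y := Nv.smul hA g (Nv.ed T hT e)) rfl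
      (Lb.smul_ed (hT := hT) hA g e).symm rfl)
    s_smul := fun g e => T.t_smul g e
    t_smul := fun g e => T.o_smul g e
    vt_inj := fun a b h => by
      have h1 : (B0.v a : B0 T hT) = B0.v b := h
      injection h1
    ed_inj := fun a b h => by
      have h1 : (B0.n (Nv.ed T hT a) : B0 T hT) = B0.n (Nv.ed T hT b) := h
      injection h1 with h2
      exact congrArg Nv.e h2
    st := fun e => (hT.adj e).ne.symm
    vt_min := fun v x h => by
      revert x
      intro (x : B0 T hT) h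
      cases x with
      | v a => exact congrArg B0.v (B0.v_le_v.1 h)
      | n x => exact absurd h B0.not_n_le_v
    vt_ed := fun (v : V) (e : E) h => by
      classical
      have h1 : v ∈ (Lb.ed T hT e).1 := B0.v_le_n.1 h
      rw [Lb.ed, Finset.mem_insert, Finset.mem_singleton] at h1
      exact h1.symm
    ed_le := fun (e : E) (e' : E) h => by
      rcases B0.n_le_n.1 h with h1 | h1
      · exact congrArg Nv.e h1
      · exact absurd h1.2 (Nat.not_lt_zero _)
    ed_vt := fun (e : E) (v : V) h => by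
      have h1 : (B0.n (Nv.ed T hT e) : B0 T hT) = B0.v v := h
      cases h1 }

end one

/-- The row SYS. -/
theorem sysS : ER.SysStatement.{u} := by
  intro Γ _ Y j hj
  have hE : Nonempty (oE Y j) := oE_nonempty Y j hj
  obtain ⟨aV, aE, M⟩ : ∃ (aV : MulAction Γ (fam Y j hE j).V) (aE : MulAction Γ (fam Y j hE j).E),
      MkL (fam Y j hE j) := by
    rw [fam_self Y hE]
    exact ⟨_, _, mkL (oT Y j) (oOf Y j) (Y.tree j) hE⟩
  let K : @ER.Mk Γ _ (msys Y hE) (mtr Y hE) j aV aE :=
    letI : MulAction Γ ((mtr Y hE).V j) := aV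
    letI : MulAction Γ ((mtr Y hE).E j) := aE
    { vt_smul := M.vt_smul
      ed_smul := M.ed_smul
      s_smul := M.s_smul
      t_smul := M.t_smul
      vt_inj := M.vt_inj
      ed_inj := M.ed_inj
      st := M.st
      vt_min := M.vt_min
      vt_ed := M.vt_ed
      ed_le := M.ed_le
      ed_vt := M.ed_vt
      fin := TL.fin_sys (fam Y j hE) }
  refine ⟨msys Y hE, rfl, mtr Y hE, j, aV, aE, K, ?_, ?_, ?_⟩
  · intro U hU
    refine stab_nv Y hE U ?_
    rintro ⟨v, hv⟩
    exact hU v hv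
  · intro x
    obtain ⟨v, hv⟩ := fam_fix Y hE j x
    exact ⟨v, fun g hg => MulAction.mem_stabilizer_iff.2 (hv g (MulAction.mem_stabilizer_iff.1 hg))⟩
  · exact ⟨(fam Y j hE j).sz, (fam Y j hE j).sz_smul, (fam Y j hE j).sz_lt⟩

end Pool.Agent.NegK.NT.ER61
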